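import Pool.Agent.Y826.CY.Main
import Pool.Agent.Y826.CY.Conv

/-!
# Cayley local spectral expanders over `F_2^n` for every `n` (MP_6591ba_co, Q1)

Let `0 < lam < 1` and `n ≥ 1`. A Cayley complex over `F_2^n` which is a `lam`-local spectral
expander exists if and only if `lam * (2 ^ n - 2) ≥ 1`, and whenever one exists, there is one with
translation invariant triangles and of degree at most `(2 n) ^ (34 * ⌈log_2 (26 / lam)⌉)`.

The theorem `PolynomialDegree` gives infinitely many `n`, for each `lam`, with no control of the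
gaps. Three new ingredients.

* Codes of every dimension. The tower of Garcia and Stichtenoth over the field `k` with
  `Q = 2 ^ (2 e)` elements gives pairs `L * L ⊆ G` of codes only for a sequence of dimensions with
  ratio `2 ^ e`. The tensor product with a Reed-Solomon code of dimension `t ≤ 2 ^ e` is a pair
  `L' * L' ⊆ G'` with `dim L' = t dim L`, `dim G' ≤ 2 t dim G`, and it fills all gaps: for every
  `d ≥ 1` there is a pair with `dim L' ≥ d`, `dim G' ≤ 16 d`, in which every nonzero word of `G'`
  has at most a proportion `lam` of zeros.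
* Projection. The link of a vertex is the graph on a finite set `P ⊆ F_2^N` of generators in which
  `a ~ b` implies that `a + b` lies in `P` and `a ~ a + b`. The quotient by a vector outside
  `P ∪ (P + P)` keeps all this, so that `N` can be lowered to any `n` with
  `2 ^ (n + 1) > |P| ^ 2 + |P| + 1`. For the remaining small `n` the complete complex serves.
* The trace of the random walk matrix of a link on `D` vertices is `0`, so one of its nontrivial
  eigenvalues is at least `1 / (D - 1) ≥ 1 / (2 ^ n - 2)` in absolute value.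
-/

set_option autoImplicit false

namespace Pool.Agent.Results.MP_6591ba_co.EveryDimension

open Pool.Agent.W132.Cay

theorem result (lam : ℝ) (hlam0 : 0 < lam) (hlam1 : lam < 1) (n : ℕ) (hn : 1 ≤ n) :
    ((∃ (X : Complex2 (Fin n → ZMod 2)) (S : Finset (Fin n → ZMod 2)),
      IsCayley X S ∧ X.IsLocalSpectralExpander lam) ↔ 1 ≤ lam * ((2 : ℝ) ^ n - 2)) ∧
    (1 ≤ lam * ((2 : ℝ) ^ n - 2) →
      ∃ (X : Complex2 (Fin n → ZMod 2)) (S : Finset (Fin n → ZMod 2)),
        IsCayley X S ∧ TriInvariant X ∧ X.IsLocalSpectralExpander lam ∧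
          S.card ≤ (2 * n) ^ (34 * ⌈Real.logb 2 (26 / lam)⌉₊)) := by
  have hmain : 1 ≤ lam * ((2 : ℝ) ^ n - 2) →
      ∃ (X : Complex2 (Fin n → ZMod 2)) (S : Finset (Fin n → ZMod 2)),
        IsCayley X S ∧ TriInvariant X ∧ X.IsLocalSpectralExpander lam ∧
          S.card ≤ (2 * n) ^ (34 * ⌈Real.logb 2 (26 / lam)⌉₊) := by
    intro h
    set e := ⌈Real.logb 2 (26 / lam)⌉₊ with he
    have h26 : (0 : ℝ) < 26 / lam := by positivity
    have h1 : 26 / lam ≤ 2 ^ e := by
      have h2 : Real.logb 2 (26 / lam) ≤ e := Nat.le_ceil _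
      rw [Real.logb_le_iff_le_rpow (by norm_num) h26] at h2
      rwa [Real.rpow_natCast] at h2
    have h3 : (26 : ℝ) ≤ lam * 2 ^ e := by
      rw [div_le_iff₀ hlam0] at h1
      linarith
    have h4 : 5 ≤ e := by
      by_contra hc
      push Not at hc
      have h5 : (2 : ℝ) ^ e ≤ 2 ^ 4 := pow_le_pow_right₀ (by norm_num) (by omega)
      nlinarith
    exact Pool.Agent.Y826.CY.main lam hlam0 hlam1 e h4 h3 n h
  refine ⟨⟨?_, ?_⟩, hmain⟩
  · rintro ⟨X, S, hS, hX⟩
    exact Pool.Agent.Y826.CY.converse n hn lam hlam0 hlam1 X S hS hX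
  · intro h
    obtain ⟨X, S, hS, _, hX, _⟩ := hmain h
    exact ⟨X, S, hS, hX⟩

end Pool.Agent.Results.MP_6591ba_co.EveryDimension
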